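import Pool.Agent.Q26.WR.TRF

/-! Job RED of project WR (helper17): reduction to chains of subgroups of the top group. -/

set_option autoImplicit false
set_option linter.unusedSectionVars false

open scoped Classical

noncomputable section

namespace Pool.Agent.Q26.WR

open Pool.Agent.Y63.KR Pool.Agent.Q18.KRX Pool.Agent.Q17.WR Pool.Agent.Q92.WR

section

variable {p : ℕ} {Γ : Type} [Group Γ]

theorem conj_le {g : Γ} {P P' : Subgroup Γ} : conjSub g P ≤ conjSub g P' ↔ P ≤ P' := by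
  constructor
  · intro h
    have h1 := conjSub_le (g := g⁻¹) h
    rwa [conjSub_inv_conjSub, conjSub_inv_conjSub] at h1
  · exact conjSub_le

theorem conj_bot (g : Γ) : conjSub g (⊥ : Subgroup Γ) = ⊥ := Subgroup.map_bot _

theorem sSup_conj (g : Γ) (σ : Set (Subgroup Γ)) :
    sSup (conjSub g '' σ) = conjSub g (sSup σ) := by
  rw [sSup_image]
  exact (Subgroup.gc_map_comap (MulAut.conj g).toMonoidHom).l_sSup.symm

theorem centralizer_conj (g : Γ) (P : Subgroup Γ) :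
    Subgroup.centralizer (conjSub g P : Set Γ) = conjSub g (Subgroup.centralizer (P : Set Γ)) := by
  ext y
  rw [mem_conjSub, Subgroup.mem_centralizer_iff, Subgroup.mem_centralizer_iff]
  constructor
  · intro h q hq
    have e := h (g * q * g⁻¹) (conj_mem_conjSub hq)
    calc q * (g⁻¹ * y * g) = g⁻¹ * ((g * q * g⁻¹) * y) * g := by group
      _ = g⁻¹ * y * g * q := by rw [e]; group
  · intro h q hq
    have e := h _ (mem_conjSub.1 hq)
    calc q * y = g * ((g⁻¹ * q * g) * (g⁻¹ * y * g)) * g⁻¹ := by group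
      _ = y * q := by rw [e]; group

theorem WC_conj [Finite Γ] (g : Γ) (C : Subgroup Γ) (K K' : Set Γ)
    (hK : ∀ x, x ∈ K ↔ g * x * g⁻¹ ∈ K') : WC p (conjSub g C) K' = WC p C K := by
  have hK2 : ∀ x ∈ K', g⁻¹ * x * g ∈ K := by
    intro x hx
    rw [hK]
    have : g * (g⁻¹ * x * g) * g⁻¹ = x := by group
    rwa [this]
  rw [WC_eq_E, WC_eq_E, ← E_image ((FP p K).filter (fun P => P ≤ C)) (conjSub g)
    (fun a _ b _ => conj_le)]
  congr 1
  ext P
  simp only [Finset.mem_filter, Finset.mem_image, mem_FP]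
  constructor
  · rintro ⟨⟨h1, h2, h3⟩, h4⟩
    refine ⟨conjSub g⁻¹ P, ⟨⟨h1.map _, conjSub_ne_bot h2, fun x hx => ?_⟩, ?_⟩,
      conjSub_conjSub_inv g P⟩
    · have h5 := h3 _ ((hK x).1 hx)
      have h6 : x * g⁻¹ = g⁻¹ * (g * x * g⁻¹) := by group
      rw [← conjSub_mul, h6, conjSub_mul, h5]
    · have := conjSub_le (g := g⁻¹) h4
      rwa [conjSub_inv_conjSub] at this
  · rintro ⟨R, ⟨⟨h1, h2, h3⟩, h4⟩, rfl⟩
    refine ⟨⟨h1.map _, conjSub_ne_bot h2, fun x hx => ?_⟩, conjSub_le h4⟩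
    have h5 := h3 _ (hK2 x hx)
    have h6 : x * g = g * (g⁻¹ * x * g) := by group
    rw [← conjSub_mul, h6, conjSub_mul, h5]

/-- a term -/
def T (p : ℕ) {Γ : Type} [Group Γ] (M : Subgroup Γ) (K : Set Γ) (σ : Set (Subgroup Γ)) : ℤ :=
  (-1 : ℤ) ^ σ.ncard * (if (∀ P ∈ σ, P ⊓ M = ⊥) ∧ Fx K σ then
        WC p (M ⊓ Subgroup.centralizer ((sSup σ : Subgroup Γ) : Set Γ)) K else 0)

theorem T_conj [Finite Γ] (M : Subgroup Γ) [M.Normal] (g : Γ) (K K' : Set Γ)
    (hK : ∀ x, x ∈ K ↔ g * x * g⁻¹ ∈ K') (σ : Set (Subgroup Γ)) :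
    T p M K' (conjSub g '' σ) = T p M K σ := by
  have hK2 : ∀ x ∈ K', g⁻¹ * x * g ∈ K := by
    intro x hx
    rw [hK]
    have : g * (g⁻¹ * x * g) * g⁻¹ = x := by group
    rwa [this]
  unfold T
  rw [ncard_conj, sSup_conj, centralizer_conj]
  have h1 : M ⊓ conjSub g (Subgroup.centralizer ((sSup σ : Subgroup Γ) : Set Γ)) =
      conjSub g (M ⊓ Subgroup.centralizer ((sSup σ : Subgroup Γ) : Set Γ)) := by
    rw [conjSub_inf, conjSub_normal g M]
  rw [h1, WC_conj g _ K K' hK]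
  have h2 : ((∀ P ∈ conjSub g '' σ, P ⊓ M = ⊥) ∧ Fx K' (conjSub g '' σ)) ↔
      ((∀ P ∈ σ, P ⊓ M = ⊥) ∧ Fx K σ) := by
    unfold Fx
    rw [Set.forall_mem_image, Set.forall_mem_image]
    refine and_congr (forall₂_congr fun P _ => ?_) (forall₂_congr fun P _ => ?_)
    · have h3 : conjSub g P ⊓ M = conjSub g (P ⊓ M) := by rw [conjSub_inf, conjSub_normal g M]
      rw [h3]
      constructor
      · intro h
        apply conjSub_injective g
        rw [h, conj_bot]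
      · intro h
        rw [h, conj_bot]
    · constructor
      · intro h x hx
        have h5 := h _ ((hK x).1 hx)
        rw [← conjSub_mul] at h5
        have h6 : g * x * g⁻¹ * g = g * x := by group
        rw [h6, conjSub_mul] at h5
        exact conjSub_injective g h5
      · intro h x hx
        have h5 := h _ (hK2 x hx)
        have h6 : x * g = g * (g⁻¹ * x * g) := by group
        rw [← conjSub_mul, h6, conjSub_mul, h5]
  by_cases h : (∀ P ∈ σ, P ⊓ M = ⊥) ∧ Fx K σ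
  · rw [if_pos h, if_pos (h2.2 h)]
  · rw [if_neg h, if_neg (fun h' => h (h2.1 h'))]

/-- conjugation of homomorphisms -/
def cj (g : Γ) : (Z2 →* Γ) ≃ (Z2 →* Γ) where
  toFun ψ := (MulAut.conj g).toMonoidHom.comp ψ
  invFun ψ := (MulAut.conj g⁻¹).toMonoidHom.comp ψ
  left_inv ψ := MonoidHom.ext fun l => by
    change g⁻¹ * (g * ψ l * g⁻¹) * g⁻¹⁻¹ = ψ l
    group
  right_inv ψ := MonoidHom.ext fun l => by
    change g * (g⁻¹ * ψ l * g⁻¹⁻¹) * g⁻¹ = ψ l
    group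

theorem cj_range (g : Γ) (ψ : Z2 →* Γ) (x : Γ) :
    x ∈ (ψ.range : Set Γ) ↔ g * x * g⁻¹ ∈ ((cj g ψ).range : Set Γ) := by
  constructor
  · rintro ⟨l, rfl⟩
    exact ⟨l, rfl⟩
  · rintro ⟨l, h⟩
    refine ⟨l, ?_⟩
    have h1 : g * ψ l * g⁻¹ = g * x * g⁻¹ := h
    exact mul_left_cancel (mul_right_cancel h1)

theorem sumT_conj [Finite Γ] [Fintype (Z2 →* Γ)] (M : Subgroup Γ) [M.Normal] (g : Γ)
    (σ : Set (Subgroup Γ)) :
    ∑ ψ : Z2 →* Γ, T p M (ψ.range : Set Γ) (conjSub g '' σ) =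
      ∑ ψ : Z2 →* Γ, T p M (ψ.range : Set Γ) σ := by
  rw [← Equiv.sum_comp (cj g)]
  exact Finset.sum_congr rfl fun ψ _ => T_conj M g _ _ (cj_range g ψ) σ

/-- a central subgroup -/
theorem WC_zero [Fact p.Prime] [Finite Γ] {C Z : Subgroup Γ} {K : Set Γ} (hZ : IsPGroup p Z)
    (hZ1 : Z ≠ ⊥) (hZC : Z ≤ C) (hc : ∀ c ∈ C, ∀ z ∈ Z, c * z = z * c)
    (hK : ∀ x ∈ K, conjSub x Z = Z) : WC p C K = 0 := by
  have hn : ∀ L : Subgroup Γ, L ≤ C → L ≤ Subgroup.normalizer (Z : Set Γ) := by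
    intro L hL x hx
    refine Subgroup.centralizer_le_normalizer _ ?_
    rw [Subgroup.mem_centralizer_iff]
    intro z hz
    exact (hc x (hL hx) z hz).symm
  have hZm : Z ∈ (FP p K).filter (fun P => P ≤ C) :=
    Finset.mem_filter.2 ⟨mem_FP.2 ⟨hZ, hZ1, hK⟩, hZC⟩
  rw [WC_eq_E, E_retract_up (fun L => L ⊔ Z)]
  · refine E_cone (c := Z) (Finset.mem_filter.2 ⟨hZm, sup_idem Z⟩) fun y hy => Or.inr ?_
    exact sup_eq_left.1 (Finset.mem_filter.1 hy).2
  · intro L hL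
    obtain ⟨h1, h2⟩ := Finset.mem_filter.1 hL
    obtain ⟨h3, h4, h5⟩ := mem_FP.1 h1
    refine Finset.mem_filter.2 ⟨mem_FP.2 ⟨h3.to_sup_of_normal_right' hZ (hn L h2), ?_,
      fun x hx => ?_⟩, sup_le h2 hZC⟩
    · intro h
      exact hZ1 (le_bot_iff.1 (h ▸ le_sup_right))
    · rw [conjSub_sup, h5 x hx, hK x hx]
  · intro L _
    exact le_sup_left
  · intro L _
    rw [sup_assoc, sup_idem]
  · intro L _ L' _ h
    exact sup_le_sup_right h Z

theorem sSup_chain' [Finite Γ] {σ : Set (Subgroup Γ)} (hσ : IsPChain p σ) :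
    sSup σ = ⊥ ∨ sSup σ ∈ σ := by
  have h := sSup_chain (σ := (Set.toFinite σ).toFinset) (by
    rw [Set.Finite.coe_toFinset]
    exact hσ.chain)
  rwa [Set.Finite.coe_toFinset, Set.Finite.mem_toFinset] at h

end

section

variable {p : ℕ} {G A Ω : Type} [Group G] [Group A] [MulAction A Ω]

theorem Jn_inj : Function.Injective (Jn G Ω : Subgroup A → Subgroup (Wr G A Ω)) :=
  Subgroup.map_injective SemidirectProduct.inr_injective

theorem Jn_mono {R R' : Subgroup A} (h : R ≤ R') : Jn G Ω R ≤ Jn G Ω R' := Subgroup.map_mono h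

theorem mem_Jn {R : Subgroup A} {x : Wr G A Ω} :
    x ∈ Jn G Ω R ↔ x.right ∈ R ∧ ∀ ω, x.left ω = 1 := by
  constructor
  · rintro ⟨s, hs, rfl⟩
    exact ⟨hs, fun ω => rfl⟩
  · rintro ⟨h1, h2⟩
    exact ⟨x.right, h1, wr_ext (fun ω => (h2 ω).symm) rfl⟩

theorem Jn_Bs (R : Subgroup A) : Jn G Ω R ⊓ Bs G A Ω = ⊥ := by
  rw [eq_bot_iff]
  rintro x ⟨h1, h2⟩
  rw [Subgroup.mem_bot]
  exact wr_ext (fun ω => (mem_Jn.1 h1).2 ω) h2

theorem sSup_Jn (τ : Set (Subgroup A)) : sSup (Jn G Ω '' τ) = Jn G Ω (sSup τ) := by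
  rw [sSup_image]
  exact (Subgroup.gc_map_comap (SemidirectProduct.inr : A →* Wr G A Ω)).l_sSup.symm

/-- the projection of a conjugate -/
theorem map_conj (x : Wr G A Ω) (L : Subgroup (Wr G A Ω)) :
    (conjSub x L).map SemidirectProduct.rightHom =
      conjSub x.right (L.map SemidirectProduct.rightHom) := by
  unfold conjSub
  rw [Subgroup.map_map, Subgroup.map_map]
  congr 1

theorem map_Jn (R : Subgroup A) : (Jn G Ω R).map SemidirectProduct.rightHom = R := by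
  unfold Jn
  rw [Subgroup.map_map]
  have : (SemidirectProduct.rightHom : Wr G A Ω →* A).comp SemidirectProduct.inr =
      MonoidHom.id A := rfl
  rw [this, Subgroup.map_id]

theorem map_conj_Jn {m : Wr G A Ω} (hm : m ∈ Bs G A Ω) (R : Subgroup A) :
    (conjSub m (Jn G Ω R)).map SemidirectProduct.rightHom = R := by
  rw [map_conj, map_Jn, mem_Bs.1 hm, conjSub_one]

theorem conj_inr (x : Wr G A Ω) (q : A) (ω : Ω) :
    (x * SemidirectProduct.inr q * x⁻¹ : Wr G A Ω).left ω =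
      x.left ω * (x.left ((x.right * q * x.right⁻¹)⁻¹ • ω))⁻¹ := by
  rw [lm, lm, SemidirectProduct.mul_right, SemidirectProduct.right_inr,
    SemidirectProduct.left_inr, Pi.one_apply, mul_one]
  congr 1
  change (x.left (x.right⁻¹⁻¹ • ((x.right * q)⁻¹ • ω)))⁻¹ = _
  rw [smul_smul]
  congr 3
  group

/-- normalising a subgroup of the complement -/
theorem conj_Jn_iff (x : Wr G A Ω) (R : Subgroup A) : conjSub x (Jn G Ω R) = Jn G Ω R ↔
    conjSub x.right R = R ∧ ∀ s ∈ R, ∀ ω : Ω, x.left (s • ω) = x.left ω := by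
  constructor
  · intro h
    have h1 : conjSub x.right R = R := by
      have e := congrArg (Subgroup.map SemidirectProduct.rightHom) h
      rw [map_conj, map_Jn] at e
      exact e
    refine ⟨h1, fun s hs ω => ?_⟩
    have hs' := hs
    rw [← h1, mem_conjSub] at hs'
    have h2 : x * SemidirectProduct.inr (x.right⁻¹ * s * x.right) * x⁻¹ ∈ Jn G Ω R := by
      have h5 : x * SemidirectProduct.inr (x.right⁻¹ * s * x.right) * x⁻¹ ∈
        conjSub x (Jn G Ω R) := conj_mem_conjSub ⟨_, hs', rfl⟩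
      rwa [h] at h5
    have h3 := (mem_Jn.1 h2).2 (s • ω)
    rw [conj_inr] at h3
    have h4 : (x.right * (x.right⁻¹ * s * x.right) * x.right⁻¹)⁻¹ • s • ω = ω := by
      have : x.right * (x.right⁻¹ * s * x.right) * x.right⁻¹ = s := by group
      rw [this, inv_smul_smul]
    rw [h4] at h3
    exact mul_inv_eq_one.1 h3
  · rintro ⟨h1, h2⟩
    have h3 : ∀ q ∈ R, x * SemidirectProduct.inr q * x⁻¹ =
        (SemidirectProduct.inr (x.right * q * x.right⁻¹) : Wr G A Ω) := by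
      intro q hq
      refine wr_ext (fun ω => ?_) rfl
      rw [conj_inr, SemidirectProduct.left_inr, Pi.one_apply, mul_inv_eq_one]
      have h4 : x.right * q * x.right⁻¹ ∈ R := by
        have := conj_mem_conjSub (g := x.right) hq
        rwa [h1] at this
      exact (h2 _ (R.inv_mem h4) ω).symm
    ext y
    constructor
    · rintro ⟨_, ⟨q, hq, rfl⟩, rfl⟩
      change x * SemidirectProduct.inr q * x⁻¹ ∈ Jn G Ω R
      rw [h3 q hq]
      refine ⟨_, ?_, rfl⟩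
      have := conj_mem_conjSub (g := x.right) hq
      rwa [h1] at this
    · rintro ⟨q, hq, rfl⟩
      have hq' := hq
      rw [SetLike.mem_coe, ← h1, mem_conjSub] at hq'
      refine ⟨SemidirectProduct.inr (x.right⁻¹ * q * x.right), ⟨_, hq', rfl⟩, ?_⟩
      change x * SemidirectProduct.inr (x.right⁻¹ * q * x.right) * x⁻¹ = _
      rw [h3 _ hq']
      congr 1
      group

/-- normalising a chain of subgroups of the complement -/
theorem Fx_iff (τ : Set (Subgroup A)) (K : Set (Wr G A Ω)) :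
    Fx K (Jn G Ω '' τ) ↔ K ⊆ SS G Ω (sSup τ) (chainStabilizer τ) := by
  unfold Fx
  rw [Set.forall_mem_image]
  constructor
  · intro h x hx
    refine ⟨?_, ?_⟩
    · rw [mem_chainStabilizer]
      intro R hR
      exact ((conj_Jn_iff x R).1 (h hR x hx)).1
    · have h1 : sSup τ ≤ Sf (A := A) x.left := by
        refine sSup_le fun R hR s hs => ?_
        exact ((conj_Jn_iff x R).1 (h hR x hx)).2 s hs
      intro s hs ω
      exact h1 hs ω
  · intro h R hR x hx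
    obtain ⟨h1, h2⟩ := h hx
    rw [mem_chainStabilizer] at h1
    exact (conj_Jn_iff x R).2 ⟨h1 R hR, fun s hs ω => h2 s (le_sSup hR hs) ω⟩

/-- the term of a chain in the complement -/
theorem sumT_Jn [Finite G] [Finite A] [Finite Ω] [Fintype (Z2 →* Wr G A Ω)]
    (τ : Set (Subgroup A)) :
    ∑ ψ : Z2 →* Wr G A Ω, T p (Bs G A Ω) (ψ.range : Set (Wr G A Ω)) (Jn G Ω '' τ) =
      (-1 : ℤ) ^ τ.ncard * ∑ᶠ ψ : {ψ : Z2 →* Wr G A Ω // (ψ.range : Set (Wr G A Ω)) ⊆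
          SS G Ω (sSup τ) (chainStabilizer τ)},
        WC p (CM G Ω (sSup τ)) (ψ.1.range : Set (Wr G A Ω)) := by
  have i1 : Fintype {ψ : Z2 →* Wr G A Ω // (ψ.range : Set (Wr G A Ω)) ⊆
          SS G Ω (sSup τ) (chainStabilizer τ)} := Fintype.ofFinite _
  rw [finsum_eq_sum_of_fintype]
  rw [← Finset.sum_subtype (Finset.univ.filter (fun ψ : Z2 →* Wr G A Ω =>
    (ψ.range : Set (Wr G A Ω)) ⊆ SS G Ω (sSup τ) (chainStabilizer τ)))
    (fun ψ => by rw [Finset.mem_filter]; exact ⟨fun h => h.2, fun h => ⟨Finset.mem_univ _, h⟩⟩)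
    (fun ψ => WC p (CM G Ω (sSup τ)) (ψ.range : Set (Wr G A Ω)))]
  rw [Finset.sum_filter, Finset.mul_sum]
  refine Finset.sum_congr rfl fun ψ _ => ?_
  unfold T
  rw [Set.ncard_image_of_injective τ Jn_inj, sSup_Jn]
  congr 1
  have h2 : ∀ P ∈ Jn G Ω '' τ, P ⊓ Bs G A Ω = ⊥ := by
    rintro _ ⟨R, _, rfl⟩
    exact Jn_Bs R
  by_cases h : (ψ.range : Set (Wr G A Ω)) ⊆ SS G Ω (sSup τ) (chainStabilizer τ)
  · rw [if_pos h, if_pos ⟨h2, (Fx_iff τ _).2 h⟩]
    rfl
  · rw [if_neg h, if_neg]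
    rintro ⟨-, h3⟩
    exact h ((Fx_iff τ _).1 h3)

/-- the chains in the fibre of `τ` -/
def Fb (τ : Set (Subgroup A)) (σ : Set (Subgroup (Wr G A Ω))) : Prop :=
  ∃ m ∈ Bs G A Ω, σ = conjSub m '' (Jn G Ω '' τ)

theorem Fb_image {τ : Set (Subgroup A)} {σ : Set (Subgroup (Wr G A Ω))} (h : Fb τ σ) :
    Subgroup.map SemidirectProduct.rightHom '' σ = τ := by
  obtain ⟨m, hm, rfl⟩ := h
  rw [← Set.image_comp, ← Set.image_comp]
  have : ((Subgroup.map SemidirectProduct.rightHom ∘ conjSub m) ∘ Jn G Ω : Subgroup A →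
      Subgroup A) = id := funext fun R => map_conj_Jn hm R
  rw [this, Set.image_id]

/-- nonzero terms come from the fibres -/
theorem exists_Fb [Fact p.Prime] (hC : S_CNJ) [Finite G] [Finite A] [Finite Ω] {K : Set (Wr G A Ω)}
    {σ : Set (Subgroup (Wr G A Ω))} (hσ : IsPChain p σ) (hT : T p (Bs G A Ω) K σ ≠ 0) :
    ∃ τ : Set (Subgroup A), IsPChain p τ ∧ Fb τ σ := by
  have hfin : Finite (Wr G A Ω) := finWr G A Ω
  unfold T at hT
  have h0 : (∀ P ∈ σ, P ⊓ Bs G A Ω = ⊥) ∧ Fx K σ := by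
    by_contra h
    rw [if_neg h, mul_zero] at hT
    exact hT rfl
  rw [if_pos h0] at hT
  have hT' := right_ne_zero_of_mul hT
  obtain ⟨h1, h2⟩ := h0
  have h3 : IsPGroup p (sSup σ : Subgroup (Wr G A Ω)) ∧ (sSup σ) ⊓ Bs G A Ω = ⊥ ∧
      ∀ x ∈ K, conjSub x (sSup σ) = sSup σ := by
    rcases sSup_chain' hσ with h | h
    · rw [h]
      exact ⟨IsPGroup.of_bot, bot_inf_eq _, fun x _ => conj_bot x⟩
    · exact ⟨hσ.isPGroup _ h, h1 _ h, h2 _ h⟩
  rcases hC p G A Ω (sSup σ) h3.1 h3.2.1 with ⟨m, hm, e⟩ | ⟨Z, hZ1, hZ2, hZ3, hZ4, hZ5⟩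
  · have hR : ∀ R ∈ σ, R = conjSub m (Jn G Ω (R.map SemidirectProduct.rightHom)) := by
      intro R hR
      have hle : R ≤ sSup σ := le_sSup hR
      have hkey : ∀ r ∈ sSup σ, m⁻¹ * r * m = SemidirectProduct.inr r.right := by
        intro r hr
        rw [e, mem_conjSub] at hr
        obtain ⟨h4, h5⟩ := mem_Jn.1 hr
        refine wr_ext (fun ω => h5 ω) ?_
        rw [SemidirectProduct.mul_right, SemidirectProduct.mul_right,
          SemidirectProduct.inv_right, mem_Bs.1 hm, inv_one, one_mul, mul_one]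
        rfl
      ext y
      rw [mem_conjSub]
      constructor
      · intro hy
        rw [hkey y (hle hy)]
        exact ⟨y.right, ⟨y, hy, rfl⟩, rfl⟩
      · rintro ⟨_, ⟨r, hr, rfl⟩, h5⟩
        have h6 : SemidirectProduct.inr r.right = m⁻¹ * y * m := h5
        rw [← hkey r (hle hr)] at h6
        have h7 : r = y := mul_left_cancel (mul_right_cancel h6)
        rw [← h7]
        exact hr
    refine ⟨Subgroup.map SemidirectProduct.rightHom '' σ, ⟨?_, ?_, ?_⟩, m, hm, ?_⟩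
    · rintro _ ⟨R, hR1, rfl⟩ _ ⟨R', hR2, rfl⟩ _
      rcases hσ.chain.total hR1 hR2 with h | h
      · exact Or.inl (Subgroup.map_mono h)
      · exact Or.inr (Subgroup.map_mono h)
    · rintro _ ⟨R, hR1, rfl⟩
      exact (hσ.isPGroup R hR1).map _
    · rintro _ ⟨R, hR1, rfl⟩ h
      apply hσ.ne_bot R hR1
      rw [hR R hR1, h]
      unfold Jn
      rw [Subgroup.map_bot, conj_bot]
    · ext R
      constructor
      · intro hR1
        exact ⟨_, ⟨_, ⟨R, hR1, rfl⟩, rfl⟩, (hR R hR1).symm⟩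
      · rintro ⟨_, ⟨_, ⟨R', hR1, rfl⟩, rfl⟩, rfl⟩
        rw [← hR R' hR1]
        exact hR1
  · exfalso
    apply hT'
    exact WC_zero hZ1 hZ2 hZ3 hZ4 fun x hx => hZ5 x (h3.2.2 x hx)

/-- conjugating a chain of the complement -/
theorem conj_chain_iff {τ : Set (Subgroup A)} {m m' : Wr G A Ω} (hm : m ∈ Bs G A Ω)
    (hm' : m' ∈ Bs G A Ω) :
    conjSub m '' (Jn G Ω '' τ) = conjSub m' '' (Jn G Ω '' τ) ↔ m⁻¹ * m' ∈ CM G Ω (sSup τ) := by
  have hmm : m⁻¹ * m' ∈ Bs G A Ω := Subgroup.mul_mem _ (Subgroup.inv_mem _ hm) hm'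
  constructor
  · intro h
    have h1 : ∀ R ∈ τ, conjSub (m⁻¹ * m') (Jn G Ω R) = Jn G Ω R := by
      intro R hR
      have h2 : conjSub m' (Jn G Ω R) ∈ conjSub m '' (Jn G Ω '' τ) := by
        rw [h]
        exact ⟨_, ⟨R, hR, rfl⟩, rfl⟩
      obtain ⟨_, ⟨R', hR', rfl⟩, h3⟩ := h2
      have h4 : R' = R := by
        have := congrArg (Subgroup.map SemidirectProduct.rightHom) h3
        rwa [map_conj_Jn hm, map_conj_Jn hm'] at this
      rw [h4] at h3
      rw [conjSub_mul, ← h3, conjSub_inv_conjSub]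
    rw [mem_CM]
    refine ⟨hmm, ?_⟩
    have h5 : sSup τ ≤ Sf (A := A) (m⁻¹ * m').left :=
      sSup_le fun R hR s hs => ((conj_Jn_iff _ R).1 (h1 R hR)).2 s hs
    intro s hs ω
    exact h5 hs ω
  · intro h
    obtain ⟨h1, h2⟩ := mem_CM.1 h
    have h3 : ∀ R ∈ τ, conjSub m' (Jn G Ω R) = conjSub m (Jn G Ω R) := by
      intro R hR
      have h4 : conjSub (m⁻¹ * m') (Jn G Ω R) = Jn G Ω R := by
        rw [conj_Jn_iff, h1, conjSub_one]
        exact ⟨rfl, fun s hs ω => h2 s (le_sSup hR hs) ω⟩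
      have h5 : m' = m * (m⁻¹ * m') := by group
      rw [h5, conjSub_mul, h4]
    rw [← Set.image_comp, ← Set.image_comp]
    exact Set.image_congr fun R hR => (h3 R hR).symm

/-- the number of the chains in a fibre -/
theorem card_Fb [Finite G] [Finite A] [Finite Ω]
    [Fintype {σ : Set (Subgroup (Wr G A Ω)) // IsPChain p σ}] {τ : Set (Subgroup A)}
    (hτ : IsPChain p τ) :
    (Finset.univ.filter (fun σ : {σ : Set (Subgroup (Wr G A Ω)) // IsPChain p σ} =>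
      Fb τ σ.1)).card = (CM G Ω (sSup τ)).relIndex (Bs G A Ω) := by
  have hJ : IsPChain p (Jn G Ω '' τ) := by
    refine ⟨?_, ?_, ?_⟩
    · rintro _ ⟨R, hR1, rfl⟩ _ ⟨R', hR2, rfl⟩ _
      rcases hτ.chain.total hR1 hR2 with h | h
      · exact Or.inl (Jn_mono h)
      · exact Or.inr (Jn_mono h)
    · rintro _ ⟨R, hR1, rfl⟩
      exact (hτ.isPGroup R hR1).map _
    · rintro _ ⟨R, hR1, rfl⟩ h
      apply hτ.ne_bot R hR1
      have := congrArg (Subgroup.map SemidirectProduct.rightHom) h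
      rwa [map_Jn, Subgroup.map_bot] at this
  rw [← Fintype.card_subtype, ← Nat.card_eq_fintype_card]
  change _ = Nat.card (Bs G A Ω ⧸ (CM G Ω (sSup τ)).subgroupOf (Bs G A Ω))
  symm
  refine Nat.card_eq_of_bijective (Quotient.lift (fun m : Bs G A Ω =>
    (⟨⟨conjSub (m : Wr G A Ω) '' (Jn G Ω '' τ), hJ.conj _⟩, m, m.2, rfl⟩ :
      {σ : {σ : Set (Subgroup (Wr G A Ω)) // IsPChain p σ} // Fb τ σ.1})) ?_) ⟨?_, ?_⟩
  · intro m m' h
    apply Subtype.ext
    apply Subtype.ext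
    change conjSub (m : Wr G A Ω) '' (Jn G Ω '' τ) = conjSub (m' : Wr G A Ω) '' (Jn G Ω '' τ)
    rw [conj_chain_iff m.2 m'.2]
    have h1 := QuotientGroup.leftRel_apply.1 h
    exact h1
  · rintro ⟨m⟩ ⟨m'⟩ h
    have h1 : conjSub (m : Wr G A Ω) '' (Jn G Ω '' τ) = conjSub (m' : Wr G A Ω) '' (Jn G Ω '' τ) :=
      congrArg (fun x => x.1.1) h
    rw [conj_chain_iff m.2 m'.2] at h1
    exact Quotient.sound (QuotientGroup.leftRel_apply.2 h1)
  · rintro ⟨⟨σ, hσ⟩, m, hm, h⟩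
    refine ⟨Quotient.mk _ ⟨m, hm⟩, ?_⟩
    apply Subtype.ext
    apply Subtype.ext
    exact h.symm

end

theorem t_RED : S_TOPX → S_CNJ → S_RED := by
  intro hX hC p _ G A Ω _ _ _ _ _ _
  have hfin : Finite (Wr G A Ω) := finWr G A Ω
  have hfW : Finite (Z2 →* Wr G A Ω) := (Pool.Agent.Q65.WR.t_LNK p (Wr G A Ω)).1
  have i1 : Fintype (Z2 →* Wr G A Ω) := Fintype.ofFinite _
  have i0 : Fintype (Set (Subgroup (Wr G A Ω))) := Fintype.ofFinite _
  have i2 : Fintype {σ : Set (Subgroup (Wr G A Ω)) // IsPChain p σ} := Fintype.ofFinite _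
  have i00 : Fintype (Set (Subgroup A)) := Fintype.ofFinite _
  have i3 : Fintype {τ : Set (Subgroup A) // IsPChain p τ} := Fintype.ofFinite _
  have h1 : ∀ ψ : Z2 →* Wr G A Ω, W p (ψ.range : Set (Wr G A Ω)) =
      ∑ σ : {σ : Set (Subgroup (Wr G A Ω)) // IsPChain p σ},
        T p (Bs G A Ω) (ψ.range : Set (Wr G A Ω)) σ.1 := by
    intro ψ
    rw [hX p (Wr G A Ω) (Bs G A Ω) (ψ.range : Set (Wr G A Ω)), finsum_eq_sum_of_fintype]
    rfl
  rw [finsum_eq_sum_of_fintype, finsum_eq_sum_of_fintype]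
  simp only [h1]
  rw [Finset.sum_comm]
  have h2 : ∀ τ : {τ : Set (Subgroup A) // IsPChain p τ}, (-1 : ℤ) ^ τ.1.ncard *
      (((CM G Ω (sSup τ.1)).relIndex (Bs G A Ω) : ℤ) *
      ∑ᶠ ψ : {ψ : Z2 →* Wr G A Ω // (ψ.range : Set (Wr G A Ω)) ⊆
          SS G Ω (sSup τ.1) (chainStabilizer τ.1)},
        WC p (CM G Ω (sSup τ.1)) (ψ.1.range : Set (Wr G A Ω))) =
      ∑ σ : {σ : Set (Subgroup (Wr G A Ω)) // IsPChain p σ}, if Fb τ.1 σ.1 then
        ∑ ψ : Z2 →* Wr G A Ω, T p (Bs G A Ω) (ψ.range : Set (Wr G A Ω)) σ.1 else 0 := by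
    intro τ
    rw [← Finset.sum_filter]
    have h3 : ∀ σ ∈ Finset.univ.filter
        (fun σ : {σ : Set (Subgroup (Wr G A Ω)) // IsPChain p σ} => Fb τ.1 σ.1),
        ∑ ψ : Z2 →* Wr G A Ω, T p (Bs G A Ω) (ψ.range : Set (Wr G A Ω)) σ.1 =
        ∑ ψ : Z2 →* Wr G A Ω, T p (Bs G A Ω) (ψ.range : Set (Wr G A Ω)) (Jn G Ω '' τ.1) := by
      intro σ hσ
      obtain ⟨m, -, h4⟩ := (Finset.mem_filter.1 hσ).2
      rw [h4, sumT_conj]
    rw [Finset.sum_congr rfl h3, Finset.sum_const, card_Fb τ.2, sumT_Jn, nsmul_eq_mul]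
    ring
  rw [Finset.sum_congr rfl (fun τ (_ : τ ∈ (Finset.univ :
    Finset {τ : Set (Subgroup A) // IsPChain p τ})) => h2 τ)]
  conv_rhs => rw [Finset.sum_comm]
  refine Finset.sum_congr rfl fun σ _ => ?_
  by_cases h : ∑ ψ : Z2 →* Wr G A Ω, T p (Bs G A Ω) (ψ.range : Set (Wr G A Ω)) σ.1 = 0
  · rw [h]
    symm
    refine Finset.sum_eq_zero fun τ _ => ?_
    split_ifs <;> rfl
  · obtain ⟨ψ, -, hψ⟩ := Finset.exists_ne_zero_of_sum_ne_zero h
    obtain ⟨τ, hτ1, hτ2⟩ := exists_Fb hC σ.2 hψ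
    rw [Finset.sum_eq_single (⟨τ, hτ1⟩ : {τ : Set (Subgroup A) // IsPChain p τ})]
    · rw [if_pos hτ2]
    · intro τ' _ hne
      rw [if_neg]
      intro h5
      apply hne
      apply Subtype.ext
      rw [← Fb_image h5, Fb_image hτ2]
    · intro h5
      exact absurd (Finset.mem_univ _) h5

end Pool.Agent.Q26.WR
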