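import Pool.Agent.Q92.WR.TOPX
import Pool.Agent.Q92.WR.CNJ
import Pool.Agent.Q65.WR.LNK

/-! Job TRF of project WR (helper17): passage to the set of the orbits. -/

set_option autoImplicit false
set_option linter.unusedSectionVars false

open scoped Classical

noncomputable section

namespace Pool.Agent.Q26.WR

open Pool.Agent.Y63.KR Pool.Agent.Q18.KRX Pool.Agent.Q17.WR Pool.Agent.Q92.WR

/-- inflationary retractions -/
theorem E_retract_up {α : Type*} [PartialOrder α] (r : α → α) (X : Finset α)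
    (h1 : ∀ x ∈ X, r x ∈ X) (h2 : ∀ x ∈ X, x ≤ r x) (h3 : ∀ x ∈ X, r (r x) = r x)
    (h4 : ∀ x ∈ X, ∀ y ∈ X, x ≤ y → r x ≤ r y) : E X = E (X.filter (fun x => r x = x)) := by
  have hd : ∀ Y : Finset α, E (α := αᵒᵈ) Y = E Y := by
    intro Y
    unfold E
    refine Finset.sum_congr ?_ fun _ _ => rfl
    refine Finset.filter_congr fun σ _ => ?_
    constructor
    · intro h a ha b hb hab
      exact (h ha hb hab).symm
    · intro h a ha b hb hab
      exact (h ha hb hab).symm
  rw [← hd, ← hd]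
  exact E_retract (α := αᵒᵈ) r _ X rfl h1 h2 h3 (fun x hx y hy h => h4 y hy x hx h)

theorem finWr (G A Ω : Type) [Group G] [Group A] [MulAction A Ω] [Finite G] [Finite A]
    [Finite Ω] : Finite (Wr G A Ω) := Finite.of_equiv _ SemidirectProduct.equivProd.symm

section

variable {G A Ω Q : Type} [Group G] [Group A] [MulAction A Ω]

/-- functions on the orbits as members of the base group -/
def io (A : Type) [Group A] [MulAction A Ω] (π : Ω → Q) : (Q → G) →* Wr G A Ω :=
  (SemidirectProduct.inl : (Ω → G) →* Wr G A Ω).comp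
    { toFun := fun h ω => h (π ω), map_one' := rfl, map_mul' := fun _ _ => rfl }

theorem io_left (π : Ω → Q) (h : Q → G) (ω : Ω) : (io A π h).left ω = h (π ω) := rfl

theorem io_right (π : Ω → Q) (h : Q → G) : (io A π h).right = 1 := rfl

theorem io_inj {π : Ω → Q} (hπ : Function.Surjective π) :
    Function.Injective (io A π : (Q → G) →* Wr G A Ω) := by
  intro h k e
  funext q
  obtain ⟨ω, rfl⟩ := hπ q
  have := congrArg (fun x : Wr G A Ω => x.left ω) e
  exact this

theorem mem_CM {P : Subgroup A} {x : Wr G A Ω} :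
    x ∈ CM G Ω P ↔ x.right = 1 ∧ ∀ s ∈ P, ∀ ω : Ω, x.left (s • ω) = x.left ω := by
  unfold CM Jn
  rw [Subgroup.mem_inf, mem_Bs, Subgroup.mem_centralizer_iff]
  constructor
  · rintro ⟨h1, h2⟩
    refine ⟨h1, fun s hs ω => ?_⟩
    have e := h2 (SemidirectProduct.inr s) ⟨s, hs, rfl⟩
    have e2 := congrArg (fun x : Wr G A Ω => x.left (s • ω)) e
    change (SemidirectProduct.inr s * x : Wr G A Ω).left (s • ω) =
      (x * SemidirectProduct.inr s : Wr G A Ω).left (s • ω) at e2
    rw [lm, lm] at e2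
    simp only [SemidirectProduct.left_inr, SemidirectProduct.right_inr, Pi.one_apply, one_mul,
      mul_one, inv_smul_smul] at e2
    exact e2.symm
  · rintro ⟨h1, h2⟩
    refine ⟨h1, ?_⟩
    rintro _ ⟨s, hs, rfl⟩
    refine wr_ext (fun ω => ?_) ?_
    · rw [lm, lm]
      simp only [SemidirectProduct.left_inr, SemidirectProduct.right_inr, Pi.one_apply, one_mul,
        mul_one]
      have := h2 s hs (s⁻¹ • ω)
      rw [smul_inv_smul] at this
      exact this.symm
    · rw [SemidirectProduct.mul_right, SemidirectProduct.mul_right, h1, mul_one, one_mul]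

theorem range_io {P : Subgroup A} {π : Ω → Q} (hπ : Function.Surjective π)
    (hP : ∀ ω ω', π ω = π ω' ↔ ∃ s ∈ P, s • ω = ω') :
    (io A π : (Q → G) →* Wr G A Ω).range = CM G Ω P := by
  ext x
  rw [mem_CM]
  constructor
  · rintro ⟨h, rfl⟩
    refine ⟨rfl, fun s hs ω => ?_⟩
    rw [io_left, io_left, (hP ω (s • ω)).2 ⟨s, hs, rfl⟩]
  · rintro ⟨h1, h2⟩
    refine ⟨fun q => x.left (hπ q).choose, wr_ext (fun ω => ?_) h1.symm⟩
    rw [io_left]
    have h3 := (hπ (π ω)).choose_spec
    obtain ⟨s, hs, e⟩ := (hP _ _).1 h3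
    have h4 := h2 s hs (hπ (π ω)).choose
    rw [e] at h4
    exact h4.symm

/-- the images under the evaluation -/
def ev (M : Subgroup (Q → G)) (q : Q) : Subgroup G := M.map (Pi.evalMonoidHom (fun _ => G) q)

theorem mem_ev {M : Subgroup (Q → G)} {q : Q} {x : G} : x ∈ ev M q ↔ ∃ h ∈ M, h q = x := Iff.rfl

theorem ev_pi (F : Q → Subgroup G) (q : Q) : ev (Subgroup.pi Set.univ F) q = F q := by
  ext x
  rw [mem_ev]
  constructor
  · rintro ⟨h, hh, rfl⟩
    exact hh q trivial
  · intro hx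
    refine ⟨Function.update 1 q x, ?_, by simp⟩
    intro q' _
    by_cases h : q' = q
    · subst h
      simpa using hx
    · rw [Function.update_of_ne h]
      exact (F q').one_mem

theorem le_pi_ev (M : Subgroup (Q → G)) : M ≤ Subgroup.pi Set.univ (ev M) :=
  fun h hh _ _ => ⟨h, hh, rfl⟩

theorem pi_le_pi {F F' : Q → Subgroup G} :
    Subgroup.pi Set.univ F ≤ Subgroup.pi Set.univ F' ↔ F ≤ F' := by
  constructor
  · intro h q
    rw [← ev_pi F q, ← ev_pi F' q]
    exact Subgroup.map_mono h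
  · intro h x hx q hq
    exact h q (hx q hq)

theorem pi_pgroup {p : ℕ} [Finite Q] {F : Q → Subgroup G} (h : ∀ q, IsPGroup p (F q)) :
    IsPGroup p (Subgroup.pi Set.univ F) := by
  have : Fintype Q := Fintype.ofFinite Q
  rintro ⟨x, hx⟩
  have h1 : ∀ q, ∃ k : ℕ, x q ^ p ^ k = 1 := by
    intro q
    obtain ⟨k, hk⟩ := h q ⟨x q, hx q trivial⟩
    exact ⟨k, congrArg Subtype.val hk⟩
  choose k hk using h1
  refine ⟨∑ q, k q, Subtype.ext ?_⟩
  change x ^ p ^ (∑ q, k q) = 1
  funext q
  rw [Pi.pow_apply, Pi.one_apply, ← Finset.add_sum_erase _ k (Finset.mem_univ q), pow_add, pow_mul,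
    hk, one_pow]

variable {a : Z2 →* Equiv.Perm Q}

/-- the twisted shift -/
def tw (c : Coc G a) (l : Z2) : (Q → G) →* (Q → G) where
  toFun h q := c.1 l q * h (a l⁻¹ q) * (c.1 l q)⁻¹
  map_one' := by
    funext q
    simp
  map_mul' h k := by
    funext q
    simp

theorem tw_apply (c : Coc G a) (l : Z2) (h : Q → G) (q : Q) :
    tw c l h q = c.1 l q * h (a l⁻¹ q) * (c.1 l q)⁻¹ := rfl

theorem ev_tw (c : Coc G a) (l : Z2) (M : Subgroup (Q → G)) (q : Q) :
    ev (M.map (tw c l)) q = conjSub (c.1 l q) (ev M (a l⁻¹ q)) := by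
  unfold ev conjSub
  rw [Subgroup.map_map, Subgroup.map_map]
  congr 1

theorem a_inv (a : Z2 →* Equiv.Perm Q) (l : Z2) (q : Q) : a l (a l⁻¹ q) = q := by
  rw [← Equiv.Perm.mul_apply, ← map_mul, mul_inv_cancel, map_one, Equiv.Perm.one_apply]

theorem a_inv' (a : Z2 →* Equiv.Perm Q) (l : Z2) (q : Q) : a l⁻¹ (a l q) = q := by
  rw [← Equiv.Perm.mul_apply, ← map_mul, inv_mul_cancel, map_one, Equiv.Perm.one_apply]

theorem pi_tw (c : Coc G a) (l : Z2) (F : Q → Subgroup G) :
    (Subgroup.pi Set.univ F).map (tw c l) =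
      Subgroup.pi Set.univ (fun q => conjSub (c.1 l q) (F (a l⁻¹ q))) := by
  ext x
  constructor
  · rintro ⟨h, hh, rfl⟩ q _
    exact conj_mem_conjSub (hh _ trivial)
  · intro hx
    refine ⟨fun q => (c.1 l (a l q))⁻¹ * x (a l q) * c.1 l (a l q), ?_, ?_⟩
    · intro q _
      have : x (a l q) ∈ conjSub (c.1 l (a l q)) (F (a l⁻¹ (a l q))) := hx (a l q) trivial
      rw [mem_conjSub, a_inv'] at this
      exact this
    · funext q
      rw [tw_apply, a_inv]
      group

/-- invariant families -/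
theorem inv_iff (c : Coc G a) (F : Q → Subgroup G) :
    (∀ l ω, F (a l ω) = conjSub (c.1 l (a l ω)) (F ω)) ↔
      ∀ l, (Subgroup.pi Set.univ F).map (tw c l) = Subgroup.pi Set.univ F := by
  constructor
  · intro h l
    rw [pi_tw]
    congr 1
    funext q
    have := h l (a l⁻¹ q)
    rw [a_inv] at this
    exact this.symm
  · intro h l q
    have e := congrArg (fun M => ev M (a l q)) (h l)
    beta_reduce at e
    rw [ev_tw, ev_pi, ev_pi, a_inv'] at e
    exact e.symm

end

section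

variable {G A Ω Q : Type} [Group G] [Group A] [MulAction A Ω] {P B : Subgroup A}
  [MulAction B Q] {π : Ω → Q}

theorem aB (α : Z2 →* B) (l : Z2) (q : Q) : ((MulAction.toPermHom B Q).comp α) l q = α l • q := rfl

/-- the homomorphism of a cocycle -/
def mk (hB : ∀ (b : B) ω, π ((b : A) • ω) = b • π ω) (α : Z2 →* B)
    (c : Coc G ((MulAction.toPermHom B Q).comp α)) : Z2 →* Wr G A Ω where
  toFun l := ⟨fun ω => c.1 l (π ω), (α l : A)⟩
  map_one' := by
    refine wr_ext (fun ω => ?_) ?_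
    · have h1 := c.2 1 1 (π ω)
      rw [mul_one, inv_one, map_one, Equiv.Perm.one_apply] at h1
      change c.1 1 (π ω) = 1
      have h3 : c.1 1 (π ω) * 1 = c.1 1 (π ω) * c.1 1 (π ω) := by rw [mul_one]; exact h1
      exact (mul_left_cancel h3).symm
    · change ((α 1 : B) : A) = 1
      rw [map_one]
      rfl
  map_mul' l k := by
    refine wr_ext (fun ω => ?_) ?_
    · rw [lm]
      change c.1 (l * k) (π ω) = c.1 l (π ω) * c.1 k (π ((α l : A)⁻¹ • ω))
      rw [c.2]
      have h1 : π ((α l : A)⁻¹ • ω) = (α l⁻¹) • π ω := by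
        rw [← hB, map_inv]
        rfl
      rw [h1]
      rfl
    · change ((α (l * k) : B) : A) = (α l : A) * (α k : A)
      rw [map_mul]
      rfl

theorem mk_left (hB : ∀ (b : B) ω, π ((b : A) • ω) = b • π ω) (α : Z2 →* B)
    (c : Coc G ((MulAction.toPermHom B Q).comp α)) (l : Z2) (ω : Ω) :
    (mk hB α c l).left ω = c.1 l (π ω) := rfl

theorem mk_right (hB : ∀ (b : B) ω, π ((b : A) • ω) = b • π ω) (α : Z2 →* B)
    (c : Coc G ((MulAction.toPermHom B Q).comp α)) (l : Z2) :
    (mk hB α c l).right = α l := rfl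

theorem conj_io (hB : ∀ (b : B) ω, π ((b : A) • ω) = b • π ω) (α : Z2 →* B)
    (c : Coc G ((MulAction.toPermHom B Q).comp α)) (l : Z2) (h : Q → G) :
    mk hB α c l * io A π h * (mk hB α c l)⁻¹ = io A π (tw c l h) := by
  rw [mul_inv_eq_iff_eq_mul]
  refine wr_ext (fun ω => ?_) ?_
  · rw [lm, lm, mk_left, mk_right, io_left, io_left, io_right, mk_left, tw_apply, inv_one, one_smul,
      inv_mul_cancel_right]
    have h1 : π ((α l : A)⁻¹ • ω) = (α l⁻¹) • π ω := by
      rw [← hB, map_inv]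
      rfl
    rw [h1]
    rfl
  · rw [SemidirectProduct.mul_right, SemidirectProduct.mul_right, io_right, io_right, mul_one,
      one_mul]

theorem conjSub_io (hB : ∀ (b : B) ω, π ((b : A) • ω) = b • π ω) (α : Z2 →* B)
    (c : Coc G ((MulAction.toPermHom B Q).comp α)) (l : Z2) (M : Subgroup (Q → G)) :
    conjSub (mk hB α c l) (M.map (io A π)) = (M.map (tw c l)).map (io A π) := by
  unfold conjSub
  rw [Subgroup.map_map, Subgroup.map_map]
  congr 1
  exact MonoidHom.ext fun h => conj_io hB α c l h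

/-- the alternating sum of a cocycle -/
theorem key {p : ℕ} [Finite G] [Finite A] [Finite Ω] [Finite Q] (hπ : Function.Surjective π)
    (hB : ∀ (b : B) ω, π ((b : A) • ω) = b • π ω)
    (hP : ∀ ω ω', π ω = π ω' ↔ ∃ s ∈ P, s • ω = ω') (α : Z2 →* B)
    (c : Coc G ((MulAction.toPermHom B Q).comp α)) :
    WC p (CM G Ω P) ((mk hB α c).range : Set (Wr G A Ω)) = EF p c := by
  have hfin : Finite (Wr G A Ω) := finWr G A Ω
  have hin : Function.Injective (io A π : (Q → G) →* Wr G A Ω) := io_inj hπ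
  have hmi : Function.Injective (Subgroup.map (io A π : (Q → G) →* Wr G A Ω)) :=
    Subgroup.map_injective hin
  have hcm : ∀ L : Subgroup (Wr G A Ω), L ≤ CM G Ω P → (L.comap (io A π)).map (io A π) = L := by
    intro L hL
    rw [Subgroup.map_comap_eq, range_io hπ hP]
    exact inf_eq_right.2 hL
  have hmc : ∀ M : Subgroup (Q → G), (M.map (io A π)).comap (io A π) = M := fun M =>
    Subgroup.comap_map_eq_self_of_injective hin M
  have hfix : ∀ M : Subgroup (Q → G),
      (∀ x ∈ ((mk hB α c).range : Set (Wr G A Ω)), conjSub x (M.map (io A π)) = M.map (io A π)) ↔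
      ∀ l, M.map (tw c l) = M := by
    intro M
    constructor
    · intro h l
      have := h _ ⟨l, rfl⟩
      rw [conjSub_io] at this
      exact hmi this
    · rintro h _ ⟨l, rfl⟩
      rw [conjSub_io, h l]
  have hpg : ∀ M : Subgroup (Q → G), IsPGroup p (M.map (io A π)) ↔ IsPGroup p M := by
    intro M
    constructor
    · intro h
      exact h.of_equiv (M.equivMapOfInjective _ hin).symm
    · intro h
      exact h.map _
  have hev : ∀ M : Subgroup (Q → G), (∀ l, M.map (tw c l) = M) → ∀ l,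
      (Subgroup.pi Set.univ (ev M)).map (tw c l) = Subgroup.pi Set.univ (ev M) := by
    intro M hM l
    rw [pi_tw]
    congr 1
    funext q
    rw [← ev_tw, hM l]
  rw [WC_eq_E]
  unfold EF
  rw [← E_image (Set.toFinite (Fm p c)).toFinset
    (fun F => (Subgroup.pi Set.univ F).map (io A π : (Q → G) →* Wr G A Ω)) ?_]
  · rw [E_retract_up (fun L => (Subgroup.pi Set.univ (ev (L.comap (io A π)))).map (io A π))]
    · congr 1
      ext L
      simp only [Finset.mem_filter, Finset.mem_image, Set.Finite.mem_toFinset]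
      constructor
      · rintro ⟨⟨h1, h2⟩, h3⟩
        obtain ⟨h4, h5, h6⟩ := mem_FP.1 h1
        refine ⟨ev (L.comap (io A π)), ⟨fun q => ?_, ?_, ?_⟩, h3⟩
        · have : IsPGroup p (L.comap (io A π)) := by
            rw [← hpg, hcm L h2]
            exact h4
          exact this.map _
        · by_contra h
          push Not at h
          apply h5
          rw [← h3]
          have : Subgroup.pi Set.univ (ev (L.comap (io A π))) = ⊥ := by
            rw [eq_bot_iff]
            intro x hx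
            rw [Subgroup.mem_bot]
            funext q
            have : x q ∈ ev (L.comap (io A π)) q := hx q trivial
            rw [h q] at this
            exact Subgroup.mem_bot.1 this
          rw [this, Subgroup.map_bot]
        · rw [inv_iff]
          apply hev
          rw [← hfix, hcm L h2]
          exact h6
      · rintro ⟨F, ⟨h1, ⟨q, h2⟩, h3⟩, rfl⟩
        rw [inv_iff] at h3
        refine ⟨⟨mem_FP.2 ⟨?_, ?_, ?_⟩, ?_⟩, ?_⟩
        · rw [hpg]
          exact pi_pgroup h1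
        · intro h
          apply h2
          rw [Subgroup.map_eq_bot_iff_of_injective _ hin] at h
          rw [← ev_pi F q, h]
          exact Subgroup.map_bot _
        · rw [hfix]
          exact h3
        · rw [← range_io hπ hP]
          rintro _ ⟨h, -, rfl⟩
          exact ⟨h, rfl⟩
        · rw [hmc]
          congr 2
          funext q
          exact ev_pi F q
    · intro L hL
      obtain ⟨h1, h2⟩ := Finset.mem_filter.1 hL
      obtain ⟨h4, h5, h6⟩ := mem_FP.1 h1
      have h7 : IsPGroup p (L.comap (io A π)) := by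
        rw [← hpg, hcm L h2]
        exact h4
      refine Finset.mem_filter.2 ⟨mem_FP.2 ⟨?_, ?_, ?_⟩, ?_⟩
      · rw [hpg]
        exact pi_pgroup fun q => h7.map _
      · intro h
        apply h5
        rw [eq_bot_iff, ← h]
        conv_lhs => rw [← hcm L h2]
        exact Subgroup.map_mono (le_pi_ev _)
      · rw [hfix]
        apply hev
        rw [← hfix, hcm L h2]
        exact h6
      · rw [← range_io hπ hP]
        rintro _ ⟨h, -, rfl⟩
        exact ⟨h, rfl⟩
    · intro L hL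
      obtain ⟨h1, h2⟩ := Finset.mem_filter.1 hL
      conv_lhs => rw [← hcm L h2]
      exact Subgroup.map_mono (le_pi_ev _)
    · intro L hL
      rw [hmc]
      congr 2
      funext q
      exact ev_pi _ q
    · intro L _ L' _ h
      refine Subgroup.map_mono (pi_le_pi.2 fun q => ?_)
      exact Subgroup.map_mono (Subgroup.comap_mono h)
  · intro F _ F' _
    rw [Subgroup.map_le_map_iff_of_injective hin, pi_le_pi]

end

theorem part1 {p : ℕ} [Fact p.Prime] {G A Ω : Type} [Group G] [Group A] [MulAction A Ω] [Finite G]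
    [Finite A] [Finite Ω] {P B : Subgroup A} {Q : Type} [Finite Q] [MulAction B Q] {π : Ω → Q}
    (hπ : Function.Surjective π) (hB : ∀ (b : B) ω, π ((b : A) • ω) = b • π ω)
    (hP : ∀ ω ω', π ω = π ω' ↔ ∃ s ∈ P, s • ω = ω') :
    ∑ᶠ ψ : {ψ : Z2 →* Wr G A Ω // (ψ.range : Set (Wr G A Ω)) ⊆ SS G Ω P B},
      WC p (CM G Ω P) (ψ.1.range : Set (Wr G A Ω)) =
    ∑ᶠ α : Z2 →* B, ∑ᶠ c : Coc G ((MulAction.toPermHom B Q).comp α), EF p c := by
  have hfin : Finite (Wr G A Ω) := finWr G A Ω
  have hfB : Finite (Z2 →* B) := (Pool.Agent.Q65.WR.t_LNK p B).1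
  have hfW : Finite (Z2 →* Wr G A Ω) := (Pool.Agent.Q65.WR.t_LNK p (Wr G A Ω)).1
  have hmem : ∀ (α : Z2 →* B) (c : Coc G ((MulAction.toPermHom B Q).comp α)),
      ((mk hB α c).range : Set (Wr G A Ω)) ⊆ SS G Ω P B := by
    rintro α c _ ⟨l, rfl⟩
    refine ⟨(α l).2, fun s hs ω => ?_⟩
    rw [mk_left, mk_left, (hP ω (s • ω)).2 ⟨s, hs, rfl⟩]
  let e : (Σ α : Z2 →* B, Coc G ((MulAction.toPermHom B Q).comp α)) →
      {ψ : Z2 →* Wr G A Ω // (ψ.range : Set (Wr G A Ω)) ⊆ SS G Ω P B} :=
    fun x => ⟨mk hB x.1 x.2, hmem x.1 x.2⟩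
  have he : Function.Bijective e := by
    constructor
    · rintro ⟨α, c⟩ ⟨α', c'⟩ h
      have h1 : mk hB α c = mk hB α' c' := congrArg Subtype.val h
      have h2 : α = α' := by
        refine MonoidHom.ext fun l => Subtype.ext ?_
        exact congrArg (fun x : Wr G A Ω => x.right) (DFunLike.congr_fun h1 l)
      subst h2
      have h3 : c = c' := by
        apply Subtype.ext
        funext l q
        obtain ⟨ω, rfl⟩ := hπ q
        exact congrArg (fun x : Wr G A Ω => x.left ω) (DFunLike.congr_fun h1 l)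
      rw [h3]
    · rintro ⟨ψ, hψ⟩
      have h1 : ∀ l, (ψ l).right ∈ B := fun l => (hψ ⟨l, rfl⟩).1
      have h2 : ∀ l, ∀ ω ω' : Ω, π ω = π ω' → (ψ l).left ω = (ψ l).left ω' := by
        intro l ω ω' h
        obtain ⟨s, hs, rfl⟩ := (hP ω ω').1 h
        exact ((hψ ⟨l, rfl⟩).2 s hs ω).symm
      let α : Z2 →* B :=
        { toFun := fun l => ⟨(ψ l).right, h1 l⟩
          map_one' := Subtype.ext (by
            change (ψ 1).right = 1
            rw [map_one]
            rfl)
          map_mul' := fun l k => Subtype.ext (by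
            change (ψ (l * k)).right = (ψ l).right * (ψ k).right
            rw [map_mul]
            rfl) }
      obtain ⟨o, ho⟩ := hπ.hasRightInverse
      have h3 : ∀ m ω, (ψ m).left (o (π ω)) = (ψ m).left ω := fun m ω => h2 m _ _ (ho (π ω))
      have hc : ∀ l k q, (ψ (l * k)).left (o q) = (ψ l).left (o q) *
          (ψ k).left (o (((MulAction.toPermHom B Q).comp α) l⁻¹ q)) := by
        intro l k q
        rw [map_mul, lm]
        congr 1
        apply h2
        rw [ho]
        change π ((α l : A)⁻¹ • o q) = α l⁻¹ • q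
        conv_rhs => rw [← ho q]
        rw [← hB, map_inv]
        rfl
      refine ⟨⟨α, ⟨fun l q => (ψ l).left (o q), hc⟩⟩, ?_⟩
      apply Subtype.ext
      refine MonoidHom.ext fun l => wr_ext (fun ω => ?_) rfl
      exact h3 l ω
  have hfs : Finite (Σ α : Z2 →* B, Coc G ((MulAction.toPermHom B Q).comp α)) :=
    Finite.of_injective e he.1
  have hfc : ∀ α : Z2 →* B, Finite (Coc G ((MulAction.toPermHom B Q).comp α)) := fun α =>
    Finite.of_injective (fun c => (⟨α, c⟩ :
      Σ α : Z2 →* B, Coc G ((MulAction.toPermHom B Q).comp α))) (fun c c' h => by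
        exact eq_of_heq (Sigma.mk.inj h).2)
  have i1 : Fintype (Z2 →* B) := Fintype.ofFinite _
  have i2 : ∀ α : Z2 →* B, Fintype (Coc G ((MulAction.toPermHom B Q).comp α)) := fun α =>
    Fintype.ofFinite _
  have i3 : Fintype {ψ : Z2 →* Wr G A Ω // (ψ.range : Set (Wr G A Ω)) ⊆ SS G Ω P B} :=
    Fintype.ofFinite _
  rw [finsum_eq_sum_of_fintype, finsum_eq_sum_of_fintype]
  have h5 : ∀ α : Z2 →* B, ∑ᶠ c : Coc G ((MulAction.toPermHom B Q).comp α), EF p c =
      ∑ c : Coc G ((MulAction.toPermHom B Q).comp α), EF p c := fun α =>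
    finsum_eq_sum_of_fintype _
  simp only [h5]
  rw [Finset.sum_sigma', ← he.sum_comp]
  exact Finset.sum_congr rfl fun x _ => key hπ hB hP x.1 x.2

theorem part2 {G A Ω : Type} [Group G] [Group A] [MulAction A Ω] [Finite G]
    [Finite A] [Finite Ω] {P : Subgroup A} {Q : Type} [Finite Q] {π : Ω → Q}
    (hπ : Function.Surjective π) (hP : ∀ ω ω', π ω = π ω' ↔ ∃ s ∈ P, s • ω = ω') :
    (CM G Ω P).relIndex (Bs G A Ω) * Nat.card G ^ Nat.card Q = Nat.card G ^ Nat.card Ω := by
  have hfin : Finite (Wr G A Ω) := finWr G A Ω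
  have h1 : Nat.card (CM G Ω P) = Nat.card G ^ Nat.card Q := by
    rw [← range_io hπ hP, ← Nat.card_fun]
    exact (Nat.card_congr (MonoidHom.ofInjective (io_inj hπ)).toEquiv).symm
  have h2 : Nat.card (Bs G A Ω) = Nat.card G ^ Nat.card Ω := by
    unfold Bs
    rw [← SemidirectProduct.range_inl_eq_ker_rightHom, ← Nat.card_fun]
    exact (Nat.card_congr
      (MonoidHom.ofInjective SemidirectProduct.inl_injective).toEquiv).symm
  have h3 : CM G Ω P ≤ Bs G A Ω := inf_le_left
  rw [← h1, ← h2, mul_comm]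
  have h4 := Subgroup.card_mul_index ((CM G Ω P).subgroupOf (Bs G A Ω))
  rw [Nat.card_congr (Subgroup.subgroupOfEquivOfLe h3).toEquiv] at h4
  exact h4

theorem part3 {A Ω : Type} [Group A] [MulAction A Ω] {P B : Subgroup A}
    (hPB : ∀ b ∈ B, conjSub b P = P) {Q : Type} [MulAction B Q] {π : Ω → Q}
    (hπ : Function.Surjective π) (hB : ∀ (b : B) ω, π ((b : A) • ω) = b • π ω)
    (hP : ∀ ω ω', π ω = π ω' ↔ ∃ s ∈ P, s • ω = ω') (α : Z2 →* B) :
    Nat.card (MulAction.orbitRel.Quotient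
      (((MulAction.toPermHom B Q).comp α).range : Subgroup (Equiv.Perm Q)) Q) =
      norb Ω (P ⊔ α.range.map B.subtype) := by
  have hR : α.range.map B.subtype ≤ Subgroup.normalizer (P : Set A) := by
    rintro _ ⟨b, -, rfl⟩
    exact conjSub_eq_iff.1 (hPB _ b.2)
  have hS : ∀ x : A, x ∈ P ⊔ α.range.map B.subtype ↔ ∃ l, ∃ u ∈ P, (α l : A) * u = x := by
    intro x
    rw [sup_comm, mem_sup_iff hR]
    constructor
    · rintro ⟨_, ⟨_, ⟨l, rfl⟩, rfl⟩, u, hu, e⟩
      exact ⟨l, u, hu, e⟩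
    · rintro ⟨l, u, hu, e⟩
      exact ⟨_, ⟨_, ⟨l, rfl⟩, rfl⟩, u, hu, e⟩
  symm
  unfold norb
  have hwd : ∀ ω ω' : Ω, (MulAction.orbitRel ↥(P ⊔ α.range.map B.subtype) Ω).r ω ω' ↔
      (MulAction.orbitRel (((MulAction.toPermHom B Q).comp α).range :
        Subgroup (Equiv.Perm Q)) Q).r (π ω) (π ω') := by
    intro ω ω'
    change ω ∈ MulAction.orbit _ ω' ↔ π ω ∈ MulAction.orbit _ (π ω')
    constructor
    · rintro ⟨⟨x, hx⟩, rfl⟩
      obtain ⟨l, u, hu, rfl⟩ := (hS x).1 hx
      refine ⟨⟨((MulAction.toPermHom B Q).comp α) l, l, rfl⟩, ?_⟩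
      change α l • π ω' = π (((α l : A) * u) • ω')
      rw [mul_smul, hB, (hP ω' (u • ω')).2 ⟨u, hu, rfl⟩]
    · rintro ⟨⟨_, l, rfl⟩, h⟩
      have h1 : α l • π ω' = π ω := h
      rw [← hB] at h1
      obtain ⟨s, hs, h2⟩ := (hP _ _).1 h1
      have h3 : s * (α l : A) ∈ P ⊔ α.range.map B.subtype := by
        refine Subgroup.mul_mem _ (Subgroup.mem_sup_left hs) (Subgroup.mem_sup_right ?_)
        exact ⟨_, ⟨l, rfl⟩, rfl⟩
      refine ⟨⟨_, h3⟩, ?_⟩
      change (s * (α l : A)) • ω' = ω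
      rw [mul_smul, h2]
  refine Nat.card_eq_of_bijective (Quotient.map' π fun ω ω' h => (hwd ω ω').1 h) ⟨?_, ?_⟩
  · rintro ⟨ω⟩ ⟨ω'⟩ h
    exact Quotient.sound ((hwd ω ω').2 (Quotient.exact h))
  · rintro ⟨q⟩
    obtain ⟨ω, rfl⟩ := hπ q
    exact ⟨Quotient.mk _ ω, rfl⟩

theorem t_TRF : S_TRF := by
  intro p _ G A Ω _ _ _ _ _ _ P B hPB Q _ _ π hπ hB hP
  exact ⟨part1 hπ hB hP, part2 hπ hP, part3 hPB hπ hB hP⟩

end Pool.Agent.Q26.WR
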