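import Mathlib

/-!
# Khinchine type lower bound (project WR of helper263)
-/

set_option autoImplicit false
set_option linter.unusedSectionVars false

namespace Pool.Agent.Q26.WR

open MeasureTheory ProbabilityTheory
open scoped ENNReal NNReal ComplexConjugate

section
variable {Ω : Type*} [MeasurableSpace Ω] (P : Measure Ω) [IsProbabilityMeasure P]

theorem int_bdd {f : Ω → ℂ} (hf : Measurable f) {C : ℝ} (h : ∀ ω, ‖f ω‖ ≤ C) : Integrable f P :=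
  Integrable.of_bound hf.aestronglyMeasurable C (Filter.Eventually.of_forall h)

theorem cross {X : ℕ → Ω → ℂ} (hm : ∀ i, Measurable (X i)) (hi : iIndepFun X P)
    (h0 : ∀ i, ∫ ω, X i ω ∂P = 0) (a : ℕ → ℂ) {i j : ℕ} (hij : i ≠ j) :
    ∫ ω, (X i ω * a i) * conj (X j ω * a j) ∂P = 0 := by
  have h1 : IndepFun (X i) (X j) P := hi.indepFun hij
  have h2 := h1.integral_fun_comp_mul_comp (f := fun z : ℂ => z * a i)
    (g := fun z : ℂ => conj (z * a j)) (hm i).aemeasurable (hm j).aemeasurable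
    (by fun_prop) (by
      refine Continuous.aestronglyMeasurable ?_
      exact Complex.continuous_conj.comp (continuous_id.mul continuous_const))
  rw [h2]
  have h3 : ∫ ω, X i ω * a i ∂P = 0 := by
    rw [integral_mul_const, h0 i, zero_mul]
  rw [h3, zero_mul]

theorem second_moment {X : ℕ → Ω → ℂ} (hm : ∀ i, Measurable (X i)) (hi : iIndepFun X P)
    (hb : ∀ i ω, ‖X i ω‖ ≤ 1) (h0 : ∀ i, ∫ ω, X i ω ∂P = 0) (N : ℕ) (a : ℕ → ℂ) :
    ∫ ω, ‖∑ i ∈ Finset.range N, X i ω * a i‖ ^ 2 ∂P =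
      ∑ i ∈ Finset.range N, ‖a i‖ ^ 2 * ∫ ω, ‖X i ω‖ ^ 2 ∂P := by
  have hint : ∀ i j, Integrable (fun ω => (X i ω * a i) * conj (X j ω * a j)) P := by
    intro i j
    refine int_bdd P ?_ (C := ‖a i‖ * ‖a j‖) fun ω => ?_
    · exact ((hm i).mul_const _).mul (Complex.continuous_conj.measurable.comp ((hm j).mul_const _))
    · rw [norm_mul, RCLike.norm_conj, norm_mul, norm_mul]
      refine mul_le_mul ?_ ?_ (by positivity) (by positivity)
      · exact mul_le_of_le_one_left (norm_nonneg _) (hb i ω)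
      · exact mul_le_of_le_one_left (norm_nonneg _) (hb j ω)
  have h1 : ∀ ω, ((‖∑ i ∈ Finset.range N, X i ω * a i‖ ^ 2 : ℝ) : ℂ) =
      ∑ i ∈ Finset.range N, ∑ j ∈ Finset.range N, (X i ω * a i) * conj (X j ω * a j) := by
    intro ω
    have h2 := Complex.mul_conj (∑ i ∈ Finset.range N, X i ω * a i)
    rw [Complex.normSq_eq_norm_sq] at h2
    rw [← h2, map_sum, Finset.sum_mul_sum]
  have h3 : ((∫ ω, ‖∑ i ∈ Finset.range N, X i ω * a i‖ ^ 2 ∂P : ℝ) : ℂ) =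
      ((∑ i ∈ Finset.range N, ‖a i‖ ^ 2 * ∫ ω, ‖X i ω‖ ^ 2 ∂P : ℝ) : ℂ) := by
    rw [← integral_complex_ofReal]
    simp_rw [h1]
    rw [integral_finsetSum _ fun i _ => integrable_finsetSum _ fun j _ => hint i j]
    push_cast
    refine Finset.sum_congr rfl fun i hi' => ?_
    rw [integral_finsetSum _ fun j _ => hint i j]
    rw [Finset.sum_eq_single_of_mem i hi' fun j _ hj => cross P hm hi h0 a hj.symm]
    have h4 : ∀ ω, (X i ω * a i) * conj (X i ω * a i) =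
        (((‖a i‖ ^ 2 * ‖X i ω‖ ^ 2 : ℝ)) : ℂ) := by
      intro ω
      rw [Complex.mul_conj, Complex.normSq_eq_norm_sq, norm_mul, mul_pow, mul_comm]
    simp_rw [h4]
    rw [integral_complex_ofReal, integral_const_mul]
    push_cast
    rfl
  exact_mod_cast h3

theorem lint_sq {f : Ω → ℂ} (hf : Measurable f) {C : ℝ} (h : ∀ ω, ‖f ω‖ ≤ C) :
    ∫⁻ ω, ‖f ω‖ₑ ^ 2 ∂P = ENNReal.ofReal (∫ ω, ‖f ω‖ ^ 2 ∂P) := by
  have h1 : Integrable (fun ω => ‖f ω‖ ^ 2) P := by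
    refine Integrable.of_bound (hf.norm.pow_const 2).aestronglyMeasurable (C ^ 2)
      (Filter.Eventually.of_forall fun ω => ?_)
    rw [Real.norm_of_nonneg (by positivity)]
    exact pow_le_pow_left₀ (norm_nonneg _) (h ω) 2
  rw [ofReal_integral_eq_lintegral_ofReal h1 (Filter.Eventually.of_forall fun ω => by positivity)]
  refine lintegral_congr fun ω => ?_
  rw [← ofReal_norm, ENNReal.ofReal_pow (norm_nonneg _)]

end

theorem khl {Ω : Type*} [MeasurableSpace Ω] (P : Measure Ω) [IsProbabilityMeasure P]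
    (X : ℕ → Ω → ℂ) (hm : ∀ i, Measurable (X i)) (hi : iIndepFun X P)
    (hb : ∀ i ω, ‖X i ω‖ ≤ 1) (h0 : ∀ i, ∫ ω, X i ω ∂P = 0) (δ : ℝ≥0)
    (hδ : ∀ i, (δ : ℝ≥0∞) ≤ ∫⁻ ω, ‖X i ω‖ₑ ^ 2 ∂P) (p : ℝ) (hp : 2 ≤ p) (N : ℕ) (a : ℕ → ℂ) :
    (δ : ℝ≥0∞) ^ (p / 2) * (∑ i ∈ Finset.range N, ‖a i‖ₑ ^ 2) ^ (p / 2) ≤
      ∫⁻ ω, ‖∑ i ∈ Finset.range N, X i ω * a i‖ₑ ^ p ∂P := by
  have hmZ : Measurable fun ω => ∑ i ∈ Finset.range N, X i ω * a i :=
    Finset.measurable_fun_sum _ fun i _ => (hm i).mul_const _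
  have hbZ : ∀ ω, ‖∑ i ∈ Finset.range N, X i ω * a i‖ ≤ ∑ i ∈ Finset.range N, ‖a i‖ := by
    intro ω
    refine (norm_sum_le _ _).trans (Finset.sum_le_sum fun i _ => ?_)
    rw [norm_mul]
    exact mul_le_of_le_one_left (norm_nonneg _) (hb i ω)
  have h1 : (δ : ℝ≥0∞) * (∑ i ∈ Finset.range N, ‖a i‖ₑ ^ 2) ≤
      ∫⁻ ω, ‖∑ i ∈ Finset.range N, X i ω * a i‖ₑ ^ 2 ∂P := by
    rw [lint_sq P hmZ hbZ, second_moment P hm hi hb h0 N a,
      ENNReal.ofReal_sum_of_nonneg fun i _ => mul_nonneg (by positivity)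
        (integral_nonneg fun ω => by positivity), Finset.mul_sum]
    refine Finset.sum_le_sum fun i _ => ?_
    rw [ENNReal.ofReal_mul (by positivity), ← lint_sq P (hm i) (hb i), mul_comm,
      ENNReal.ofReal_pow (norm_nonneg _), ofReal_norm]
    exact mul_le_mul_right (hδ i) _
  have h2 := eLpNorm'_le_eLpNorm'_of_exponent_le (f := fun ω => ∑ i ∈ Finset.range N, X i ω * a i)
    (by norm_num : (0 : ℝ) < 2) hp P hmZ.aestronglyMeasurable
  unfold eLpNorm' at h2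
  have hp0 : 0 < p := by linarith
  rw [← ENNReal.mul_rpow_of_nonneg _ _ (by positivity : 0 ≤ p / 2)]
  calc ((δ : ℝ≥0∞) * ∑ i ∈ Finset.range N, ‖a i‖ₑ ^ 2) ^ (p / 2)
      ≤ (∫⁻ ω, ‖∑ i ∈ Finset.range N, X i ω * a i‖ₑ ^ 2 ∂P) ^ (p / 2) :=
        ENNReal.rpow_le_rpow h1 (by positivity)
    _ = ((∫⁻ ω, ‖∑ i ∈ Finset.range N, X i ω * a i‖ₑ ^ (2 : ℝ) ∂P) ^ (1 / (2 : ℝ))) ^ p := by
        rw [← ENNReal.rpow_mul]
        congr 1
        · refine lintegral_congr fun ω => ?_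
          rw [← ENNReal.rpow_natCast]
          norm_num
        · ring
    _ ≤ ((∫⁻ ω, ‖∑ i ∈ Finset.range N, X i ω * a i‖ₑ ^ p ∂P) ^ (1 / p)) ^ p :=
        ENNReal.rpow_le_rpow h2 hp0.le
    _ = ∫⁻ ω, ‖∑ i ∈ Finset.range N, X i ω * a i‖ₑ ^ p ∂P := by
        rw [← ENNReal.rpow_mul, one_div, inv_mul_cancel₀ hp0.ne', ENNReal.rpow_one]

end Pool.Agent.Q26.WR
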