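import Mathlib

/-!
# Khinchine type upper bound with constant of order `√q` (project WR of helper263)
-/

set_option autoImplicit false

namespace Pool.Agent.Q26.WR

open MeasureTheory ProbabilityTheory
open scoped ENNReal NNReal

section
variable {Ω : Type*} [MeasurableSpace Ω] (P : Measure Ω) [IsProbabilityMeasure P]

/-- `x^q ≤ q^q e^(x-q)` -/
theorem rpow_le_exp {x q : ℝ} (hx : 0 ≤ x) (hq : 0 < q) : x ^ q ≤ q ^ q * Real.exp (x - q) := by
  have h1 : x / q ≤ Real.exp (x / q - 1) := by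
    have := Real.add_one_le_exp (x / q - 1)
    linarith
  have h2 : (x / q) ^ q ≤ Real.exp (x / q - 1) ^ q :=
    Real.rpow_le_rpow (by positivity) h1 hq.le
  rw [← Real.exp_mul, Real.div_rpow hx hq.le, div_le_iff₀ (by positivity)] at h2
  have h3 : (x / q - 1) * q = x - q := by
    field_simp
  rw [h3] at h2
  linarith

theorem subg {Y : ℕ → Ω → ℝ} (hm : ∀ i, Measurable (Y i)) (hi : iIndepFun Y P)
    {b : ℕ → ℝ} (hb : ∀ i ω, |Y i ω| ≤ b i) (h0 : ∀ i, ∫ ω, Y i ω ∂P = 0) (N : ℕ) :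
    ∃ c : ℝ≥0, (c : ℝ) = ∑ i ∈ Finset.range N, b i ^ 2 ∧
      HasSubgaussianMGF (fun ω => ∑ i ∈ Finset.range N, Y i ω) c P := by
  refine ⟨∑ i ∈ Finset.range N, (‖b i - (-b i)‖₊ / 2) ^ 2, ?_, ?_⟩
  · push_cast
    refine Finset.sum_congr rfl fun i _ => ?_
    rw [Real.norm_eq_abs]
    have h1 : b i - -b i = 2 * b i := by ring
    rw [h1, abs_mul, abs_two, mul_div_assoc, mul_comm, div_mul_cancel₀ _ (two_ne_zero), sq_abs]
  · refine HasSubgaussianMGF.sum_of_iIndepFun hi fun i _ => ?_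
    refine hasSubgaussianMGF_of_mem_Icc_of_integral_eq_zero (hm i).aemeasurable
      (Filter.Eventually.of_forall fun ω => ?_) (h0 i)
    exact ⟨(abs_le.1 (hb i ω)).1, (abs_le.1 (hb i ω)).2⟩

theorem real_bound {Y : ℕ → Ω → ℝ} (hm : ∀ i, Measurable (Y i)) (hi : iIndepFun Y P)
    {b : ℕ → ℝ} (hb : ∀ i ω, |Y i ω| ≤ b i) (h0 : ∀ i, ∫ ω, Y i ω ∂P = 0) {q : ℝ} (hq : 1 ≤ q)
    (N : ℕ) : ∫⁻ ω, ‖∑ i ∈ Finset.range N, Y i ω‖ₑ ^ q ∂P ≤
      ENNReal.ofReal (2 * (Real.sqrt (∑ i ∈ Finset.range N, b i ^ 2) * Real.sqrt q) ^ q) := by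
  have hq0 : 0 < q := by linarith
  obtain ⟨c, hc, hsub⟩ := subg P hm hi hb h0 N
  set W : Ω → ℝ := fun ω => ∑ i ∈ Finset.range N, Y i ω with hW
  change ∫⁻ ω, ‖W ω‖ₑ ^ q ∂P ≤ _
  by_cases hs : ∑ i ∈ Finset.range N, b i ^ 2 = 0
  · have h1 : ∀ ω, W ω = 0 := by
      intro ω
      refine Finset.sum_eq_zero fun i hi' => ?_
      have h2 := (Finset.sum_eq_zero_iff_of_nonneg (fun i _ => sq_nonneg (b i))).1 hs i hi'
      have h3 : b i = 0 := by
        have := pow_eq_zero_iff (two_ne_zero) |>.1 h2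
        exact this
      have h4 := hb i ω
      rw [h3] at h4
      exact abs_eq_zero.1 (le_antisymm h4 (abs_nonneg _))
    simp only [h1, enorm_zero, ENNReal.zero_rpow_of_pos hq0, lintegral_zero]
    exact zero_le
  have hs2 : 0 < ∑ i ∈ Finset.range N, b i ^ 2 :=
    lt_of_le_of_ne (Finset.sum_nonneg fun i _ => sq_nonneg _) (Ne.symm hs)
  set s2 : ℝ := ∑ i ∈ Finset.range N, b i ^ 2 with hs2d
  set s : ℝ := Real.sqrt s2 with hsd
  have hs0 : 0 < s := Real.sqrt_pos.2 hs2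
  have hss : s ^ 2 = s2 := Real.sq_sqrt hs2.le
  set t : ℝ := Real.sqrt q / s with htd
  have hsq : 0 < Real.sqrt q := Real.sqrt_pos.2 hq0
  have ht0 : 0 < t := div_pos hsq hs0
  have hsqq : Real.sqrt q ^ 2 = q := Real.sq_sqrt hq0.le
  -- pointwise
  have hpt : ∀ ω, |W ω| ^ q ≤ (s * Real.sqrt q) ^ q * Real.exp (-q) *
      (Real.exp (t * W ω) + Real.exp (-t * W ω)) := by
    intro ω
    have h1 := rpow_le_exp (mul_nonneg ht0.le (abs_nonneg (W ω))) hq0
    rw [Real.mul_rpow ht0.le (abs_nonneg _)] at h1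
    have h2 : (s * Real.sqrt q) ^ q * t ^ q = q ^ q := by
      rw [← Real.mul_rpow (by positivity) ht0.le]
      congr 1
      rw [htd]
      field_simp
      exact hsqq
    have h3 : 0 < t ^ q := Real.rpow_pos_of_pos ht0 q
    have h4 : |W ω| ^ q ≤ (s * Real.sqrt q) ^ q * Real.exp (t * |W ω| - q) := by
      have h5 : t ^ q * |W ω| ^ q ≤ t ^ q * ((s * Real.sqrt q) ^ q *
          Real.exp (t * |W ω| - q)) := by
        rw [← h2] at h1
        linarith
      exact le_of_mul_le_mul_left h5 h3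
    refine h4.trans ?_
    rw [mul_assoc]
    refine mul_le_mul_of_nonneg_left ?_ (by positivity)
    rw [mul_add, ← Real.exp_add, ← Real.exp_add]
    rcases abs_cases (W ω) with ⟨h5, _⟩ | ⟨h5, _⟩
    · rw [h5]
      have h6 : t * W ω - q = -q + t * W ω := by ring
      rw [h6]
      linarith [Real.exp_pos (-q + -t * W ω)]
    · rw [h5]
      have h6 : t * -W ω - q = -q + -t * W ω := by ring
      rw [h6]
      linarith [Real.exp_pos (-q + t * W ω)]
  have hi1 := hsub.integrable_exp_mul t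
  have hi2 := hsub.integrable_exp_mul (-t)
  have hm1 : mgf W P t ≤ Real.exp (q / 2) := by
    refine (hsub.mgf_le t).trans (Real.exp_le_exp.2 (le_of_eq ?_))
    rw [hc, ← hss, htd]
    field_simp
    exact hsqq
  have hm2 : mgf W P (-t) ≤ Real.exp (q / 2) := by
    refine (hsub.mgf_le (-t)).trans (Real.exp_le_exp.2 (le_of_eq ?_))
    rw [hc, ← hss, neg_sq, htd]
    field_simp
    exact hsqq
  have hI : Integrable (fun ω => (s * Real.sqrt q) ^ q * Real.exp (-q) *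
      (Real.exp (t * W ω) + Real.exp (-t * W ω))) P := (hi1.add hi2).const_mul _
  calc ∫⁻ ω, ‖W ω‖ₑ ^ q ∂P ≤ ∫⁻ ω, ENNReal.ofReal ((s * Real.sqrt q) ^ q * Real.exp (-q) *
      (Real.exp (t * W ω) + Real.exp (-t * W ω))) ∂P := by
        refine lintegral_mono fun ω => ?_
        rw [← ofReal_norm, ENNReal.ofReal_rpow_of_nonneg (norm_nonneg _) hq0.le]
        exact ENNReal.ofReal_le_ofReal (hpt ω)
    _ = ENNReal.ofReal (∫ ω, (s * Real.sqrt q) ^ q * Real.exp (-q) *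
      (Real.exp (t * W ω) + Real.exp (-t * W ω)) ∂P) := by
        rw [ofReal_integral_eq_lintegral_ofReal hI (Filter.Eventually.of_forall fun ω => by
          positivity)]
    _ ≤ ENNReal.ofReal (2 * (s * Real.sqrt q) ^ q) := by
        refine ENNReal.ofReal_le_ofReal ?_
        rw [integral_const_mul, integral_add hi1 hi2]
        have h1 : ∫ ω, Real.exp (t * W ω) ∂P ≤ Real.exp (q / 2) := hm1
        have h2 : ∫ ω, Real.exp (-t * W ω) ∂P ≤ Real.exp (q / 2) := hm2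
        have h3 : Real.exp (-q) * (Real.exp (q / 2) + Real.exp (q / 2)) ≤ 2 := by
          rw [mul_add, ← Real.exp_add]
          have h4 : Real.exp (-q + q / 2) ≤ 1 := Real.exp_le_one_iff.2 (by linarith)
          linarith
        have h5 : (0 : ℝ) ≤ (s * Real.sqrt q) ^ q := by positivity
        calc (s * Real.sqrt q) ^ q * Real.exp (-q) *
            (∫ ω, Real.exp (t * W ω) ∂P + ∫ ω, Real.exp (-t * W ω) ∂P)
            ≤ (s * Real.sqrt q) ^ q * Real.exp (-q) * (Real.exp (q / 2) + Real.exp (q / 2)) :=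
              mul_le_mul_of_nonneg_left (add_le_add h1 h2) (by positivity)
          _ = (s * Real.sqrt q) ^ q * (Real.exp (-q) * (Real.exp (q / 2) + Real.exp (q / 2))) := by
              ring
          _ ≤ (s * Real.sqrt q) ^ q * 2 := mul_le_mul_of_nonneg_left h3 h5
          _ = 2 * (s * Real.sqrt q) ^ q := by ring

end

theorem khu {Ω : Type*} [MeasurableSpace Ω] (P : Measure Ω) [IsProbabilityMeasure P]
    (X : ℕ → Ω → ℂ) (hm : ∀ i, Measurable (X i)) (hi : iIndepFun X P)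
    (hb : ∀ i ω, ‖X i ω‖ ≤ 1) (h0 : ∀ i, ∫ ω, X i ω ∂P = 0) (q : ℝ) (hq : 1 ≤ q) (N : ℕ)
    (a : ℕ → ℂ) :
    ∫⁻ ω, ‖∑ i ∈ Finset.range N, X i ω * a i‖ₑ ^ q ∂P ≤
      ENNReal.ofReal (8 * Real.sqrt q) ^ q * (∑ i ∈ Finset.range N, ‖a i‖ₑ ^ 2) ^ (q / 2) := by
  have hq0 : 0 < q := by linarith
  have hZm : Measurable fun ω => ∑ i ∈ Finset.range N, X i ω * a i :=
    Finset.measurable_fun_sum _ fun i _ => (hm i).mul_const _
  have hint : ∀ i, Integrable (fun ω => X i ω * a i) P := fun i =>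
    Integrable.of_bound ((hm i).mul_const _).aestronglyMeasurable ‖a i‖
      (Filter.Eventually.of_forall fun ω => by
        rw [norm_mul]
        exact mul_le_of_le_one_left (norm_nonneg _) (hb i ω))
  have hz : ∀ i, ∫ ω, X i ω * a i ∂P = 0 := fun i => by
    rw [integral_mul_const, h0 i, zero_mul]
  -- real part
  have hre : ∫⁻ ω, ‖∑ i ∈ Finset.range N, (X i ω * a i).re‖ₑ ^ q ∂P ≤
      ENNReal.ofReal (2 * (Real.sqrt (∑ i ∈ Finset.range N, ‖a i‖ ^ 2) * Real.sqrt q) ^ q) := by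
    refine real_bound P (Y := fun i ω => (X i ω * a i).re) (fun i =>
      Complex.measurable_re.comp ((hm i).mul_const _)) ?_ (fun i ω => ?_) (fun i => ?_) hq N
    · exact hi.comp (fun i z => (z * a i).re) fun i =>
        Complex.measurable_re.comp (measurable_id.mul_const _)
    · refine (Complex.abs_re_le_norm _).trans ?_
      rw [norm_mul]
      exact mul_le_of_le_one_left (norm_nonneg _) (hb i ω)
    · have h1 := Complex.reCLM.integral_comp_comm (hint i)
      rw [hz i, map_zero] at h1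
      exact h1
  have him : ∫⁻ ω, ‖∑ i ∈ Finset.range N, (X i ω * a i).im‖ₑ ^ q ∂P ≤
      ENNReal.ofReal (2 * (Real.sqrt (∑ i ∈ Finset.range N, ‖a i‖ ^ 2) * Real.sqrt q) ^ q) := by
    refine real_bound P (Y := fun i ω => (X i ω * a i).im) (fun i =>
      Complex.measurable_im.comp ((hm i).mul_const _)) ?_ (fun i ω => ?_) (fun i => ?_) hq N
    · exact hi.comp (fun i z => (z * a i).im) fun i =>
        Complex.measurable_im.comp (measurable_id.mul_const _)
    · refine (Complex.abs_im_le_norm _).trans ?_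
      rw [norm_mul]
      exact mul_le_of_le_one_left (norm_nonneg _) (hb i ω)
    · have h1 := Complex.imCLM.integral_comp_comm (hint i)
      rw [hz i, map_zero] at h1
      exact h1
  set s2 : ℝ := ∑ i ∈ Finset.range N, ‖a i‖ ^ 2 with hs2
  have hs20 : 0 ≤ s2 := Finset.sum_nonneg fun i _ => sq_nonneg _
  have hpt : ∀ ω, ‖∑ i ∈ Finset.range N, X i ω * a i‖ₑ ^ q ≤ (2 : ℝ≥0∞) ^ (q - 1) *
      (‖∑ i ∈ Finset.range N, (X i ω * a i).re‖ₑ ^ q +
        ‖∑ i ∈ Finset.range N, (X i ω * a i).im‖ₑ ^ q) := by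
    intro ω
    refine le_trans ?_ (ENNReal.rpow_add_le_mul_rpow_add_rpow _ _ hq)
    refine ENNReal.rpow_le_rpow ?_ hq0.le
    rw [← ofReal_norm, ← ofReal_norm, ← ofReal_norm, ← ENNReal.ofReal_add (norm_nonneg _)
      (norm_nonneg _)]
    refine ENNReal.ofReal_le_ofReal ?_
    rw [← Complex.re_sum, ← Complex.im_sum]
    exact Complex.norm_le_abs_re_add_abs_im _
  have hmre : Measurable fun ω => ‖∑ i ∈ Finset.range N, (X i ω * a i).re‖ₑ ^ q := by
    refine Measurable.pow_const ?_ q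
    exact (Finset.measurable_fun_sum _ fun i _ =>
      Complex.measurable_re.comp ((hm i).mul_const _)).enorm
  have hmim : Measurable fun ω => ‖∑ i ∈ Finset.range N, (X i ω * a i).im‖ₑ ^ q := by
    refine Measurable.pow_const ?_ q
    exact (Finset.measurable_fun_sum _ fun i _ =>
      Complex.measurable_im.comp ((hm i).mul_const _)).enorm
  have hR : ENNReal.ofReal (8 * Real.sqrt q) ^ q *
      (∑ i ∈ Finset.range N, ‖a i‖ₑ ^ 2) ^ (q / 2) =
      ENNReal.ofReal ((8 * Real.sqrt q) ^ q * Real.sqrt s2 ^ q) := by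
    have h1 : ∑ i ∈ Finset.range N, ‖a i‖ₑ ^ 2 = ENNReal.ofReal s2 := by
      rw [hs2, ENNReal.ofReal_sum_of_nonneg fun i _ => sq_nonneg _]
      refine Finset.sum_congr rfl fun i _ => ?_
      rw [ENNReal.ofReal_pow (norm_nonneg _), ofReal_norm]
    rw [h1, ENNReal.ofReal_rpow_of_nonneg (by positivity) hq0.le,
      ENNReal.ofReal_rpow_of_nonneg hs20 (by positivity), ← ENNReal.ofReal_mul (by positivity)]
    congr 2
    rw [Real.sqrt_eq_rpow, ← Real.rpow_mul hs20]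
    congr 1
    ring
  rw [hR]
  calc ∫⁻ ω, ‖∑ i ∈ Finset.range N, X i ω * a i‖ₑ ^ q ∂P
      ≤ ∫⁻ ω, (2 : ℝ≥0∞) ^ (q - 1) * (‖∑ i ∈ Finset.range N, (X i ω * a i).re‖ₑ ^ q +
        ‖∑ i ∈ Finset.range N, (X i ω * a i).im‖ₑ ^ q) ∂P := lintegral_mono hpt
    _ = (2 : ℝ≥0∞) ^ (q - 1) * (∫⁻ ω, ‖∑ i ∈ Finset.range N, (X i ω * a i).re‖ₑ ^ q ∂P +
        ∫⁻ ω, ‖∑ i ∈ Finset.range N, (X i ω * a i).im‖ₑ ^ q ∂P) := by
        rw [← lintegral_add_left hmre]
        exact lintegral_const_mul _ (hmre.add hmim)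
    _ ≤ (2 : ℝ≥0∞) ^ (q - 1) * (ENNReal.ofReal (2 * (Real.sqrt s2 * Real.sqrt q) ^ q) +
        ENNReal.ofReal (2 * (Real.sqrt s2 * Real.sqrt q) ^ q)) := by
        gcongr
    _ = ENNReal.ofReal ((2 : ℝ) ^ (q - 1) * (2 * (Real.sqrt s2 * Real.sqrt q) ^ q +
        2 * (Real.sqrt s2 * Real.sqrt q) ^ q)) := by
        have hT : (0 : ℝ) ≤ 2 * (Real.sqrt s2 * Real.sqrt q) ^ q := by positivity
        have h2 : (0 : ℝ) ≤ (2 : ℝ) ^ (q - 1) := by positivity
        rw [← ENNReal.ofReal_add hT hT, ENNReal.ofReal_mul h2,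
          ← ENNReal.ofReal_rpow_of_pos (by norm_num : (0 : ℝ) < 2), ENNReal.ofReal_ofNat]
    _ ≤ ENNReal.ofReal ((8 * Real.sqrt q) ^ q * Real.sqrt s2 ^ q) := by
        refine ENNReal.ofReal_le_ofReal ?_
        rw [Real.mul_rpow (Real.sqrt_nonneg _) (Real.sqrt_nonneg _),
          Real.mul_rpow (by norm_num : (0 : ℝ) ≤ 8) (Real.sqrt_nonneg _),
          Real.rpow_sub_one (by norm_num : (2 : ℝ) ≠ 0)]
        have h8 : (8 : ℝ) ^ q = 4 ^ q * 2 ^ q := by
          rw [← Real.mul_rpow (by norm_num) (by norm_num)]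
          norm_num
        have h4 : (4 : ℝ) ≤ 4 ^ q := by
          calc (4 : ℝ) = 4 ^ (1 : ℝ) := (Real.rpow_one 4).symm
            _ ≤ 4 ^ q := Real.rpow_le_rpow_of_exponent_le (by norm_num) hq
        rw [h8]
        have h5 : (0 : ℝ) ≤ 2 ^ q * (Real.sqrt s2 ^ q * Real.sqrt q ^ q) := by positivity
        nlinarith [mul_le_mul_of_nonneg_right h4 h5]

end Pool.Agent.Q26.WR
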